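import Mathlib

set_option autoImplicit false

namespace Pool.Agent.H.MP_7c0615_lc

open Finset Filter

theorem small {α : Type} [Fintype α] [DecidableEq α] (P : Finpartition (univ : Finset α)) (δ : ℝ)
    (hδ : 0 ≤ δ) (S T : Finset α)
    (h : ∀ p ∈ T, p ∈ S ∧ ∃ U ∈ P.parts, p ∈ U ∧ (#(S ∩ U) : ℝ) < #U * δ) :
    (#T : ℝ) ≤ Fintype.card α * δ := by
  classical
  have h1 : T ⊆ (P.parts.filter fun U => (#(S ∩ U) : ℝ) < #U * δ).biUnion fun U => S ∩ U :=
    fun p hp => by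
      obtain ⟨a, U, b, c, d⟩ := h p hp
      exact mem_biUnion.2 ⟨U, mem_filter.2 ⟨b, d⟩, mem_inter.2 ⟨a, c⟩⟩
  calc (#T : ℝ) ≤ ∑ U ∈ P.parts.filter (fun U => (#(S ∩ U) : ℝ) < #U * δ), (#(S ∩ U) : ℝ) := by
        exact_mod_cast (card_le_card h1).trans card_biUnion_le
    _ ≤ ∑ U ∈ P.parts.filter (fun U => (#(S ∩ U) : ℝ) < #U * δ), (#U : ℝ) * δ :=
        sum_le_sum fun U hU => (mem_filter.1 hU).2.le
    _ ≤ ∑ U ∈ P.parts, (#U : ℝ) * δ :=
        sum_le_sum_of_subset_of_nonneg (filter_subset _ _) fun _ _ _ => by positivity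
    _ = _ := by
        rw [← sum_mul, ← Nat.cast_sum, P.sum_card_parts, card_univ]

theorem small2 {α E V : Type} [Fintype α] [DecidableEq α] [Fintype V] [DecidableEq V]
    (P : Finpartition (univ : Finset α)) (δ : ℝ) (hδ : 0 ≤ δ) (B B' : Finset E) (a : E → α)
    (c : E → V) (h2 : ∀ e ∈ B, ∀ e' ∈ B, a e = a e' → c e = c e' → e = e')
    (h : ∀ e ∈ B', e ∈ B ∧ ∃ U ∈ P.parts, a e ∈ U ∧
      (#((B.filter fun f => c f = c e).image a ∩ U) : ℝ) < #U * δ) :
    (#B' : ℝ) ≤ Fintype.card V * (Fintype.card α * δ) := by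
  classical
  rw [card_eq_sum_card_fiberwise (f := c) (t := univ) (by simp), Nat.cast_sum]
  refine (sum_le_card_nsmul _ _ (Fintype.card α * δ) fun v _ => ?_).trans_eq (by simp)
  rw [← card_image_of_injOn (f := a) fun e he e' he' k => by
    simp only [coe_filter, Set.mem_ofPred_eq] at he he'
    exact h2 e (h e he.1).1 e' (h e' he'.1).1 k (he.2.trans he'.2.symm)]
  refine small P δ hδ ((B.filter fun f => c f = v).image a) _ fun p hp => ?_
  obtain ⟨e, he, rfl⟩ := mem_image.1 hp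
  obtain ⟨h3, rfl⟩ := mem_filter.1 he
  exact ⟨mem_image_of_mem _ (mem_filter.2 ⟨(h e h3).1, rfl⟩), (h e h3).2⟩

theorem reg (ε : ℝ) (hε : 0 < ε) : ∃ n0 : ℕ, ∀ n ≥ n0, ∀ (E : Type) (B : Finset E)
    (a b c d : E → Fin n),
    (∀ e ∈ B, ∀ e' ∈ B, a e = a e' → b e = b e' → e = e') →
    (∀ e ∈ B, ∀ e' ∈ B, a e = a e' → c e = c e' → e = e') →
    (∀ e ∈ B, ∀ e' ∈ B, b e = b e' → d e = d e' → e = e') →
    (∀ e ∈ B, ∀ e' ∈ B, ∀ e'' ∈ B, ∀ f ∈ B, a e' = a e → b e'' = b e → c e' = c f → d e'' = d f →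
      e' = e ∨ e'' = e) → (#B : ℝ) ≤ 5 * ε * n ^ 2 := by
  classical
  obtain ⟨L, hL⟩ : ∃ L, L = SzemerediRegularity.bound (ε / 8) ⌈4 / ε⌉₊ := ⟨_, rfl⟩
  refine ⟨⌈4 / ε⌉₊ + ⌈2 * (L : ℝ) ^ 2 / (ε / 8) ^ 3⌉₊ + 1, fun n hn E B a b c d h1 h2 h3 h4 => ?_⟩
  let G : SimpleGraph (Fin n ⊕ Fin n) :=
    SimpleGraph.fromRel fun p q => ∃ e ∈ B, p = .inl (a e) ∧ q = .inr (b e)
  have hN : Fintype.card (Fin n ⊕ Fin n) = 2 * n := by simp [two_mul]
  have n0 : 0 < n := by omega
  have : Nonempty (Fin n ⊕ Fin n) := ⟨.inl ⟨0, n0⟩⟩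
  obtain ⟨P, p1, p2, p3, p4⟩ := szemeredi_regularity G (by positivity : 0 < ε / 8)
    (l := ⌈4 / ε⌉₊) (by omega)
  have k := SimpleGraph.regularityReduced_edges_card_aux hε p1 p4
    ((Nat.le_ceil _).trans (Nat.cast_le.2 p2))
  obtain ⟨R, hR⟩ : ∃ R, R = G.regularityReduced P (ε / 8) (ε / 4) := ⟨_, rfl⟩
  let S : Fin n → Finset (Fin n ⊕ Fin n) := fun v =>
    (B.filter fun f => c f = v).image fun e => .inl (a e)
  let T : Fin n → Finset (Fin n ⊕ Fin n) := fun v =>
    (B.filter fun f => d f = v).image fun e => .inr (b e)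
  let B1 := B.filter fun e => ¬R.Adj (.inl (a e)) (.inr (b e))
  let B2 := B.filter fun e => ∃ U ∈ P.parts, .inl (a e) ∈ U ∧ (#(S (c e) ∩ U) : ℝ) < #U * (ε / 8)
  let B3 := B.filter fun e => ∃ U ∈ P.parts, .inr (b e) ∈ U ∧ (#(T (d e) ∩ U) : ℝ) < #U * (ε / 8)
  have c2 := small2 P (ε / 8) (by positivity) B B2 (fun e => .inl (a e)) c
    (fun e he e' he' k => h2 e he e' he' (Sum.inl_injective k)) fun e he => mem_filter.1 he
  have c3 := small2 P (ε / 8) (by positivity) B B3 (fun e => .inr (b e)) d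
    (fun e he e' he' k => h3 e he e' he' (Sum.inr_injective k)) fun e he => mem_filter.1 he
  have c1 : (#B1 : ℝ) ≤ #G.edgeFinset - #(G.regularityReduced P (ε / 8) (ε / 4)).edgeFinset := by
    rw [← cast_card_sdiff (SimpleGraph.edgeFinset_mono SimpleGraph.regularityReduced_le),
      Nat.cast_le]
    refine card_le_card_of_injOn (fun e => s(.inl (a e), .inr (b e))) (fun e he => ?_)
      fun e he e' he' k => ?_
    · obtain ⟨x, y⟩ := mem_filter.1 he
      simp only [coe_sdiff, SimpleGraph.coe_edgeFinset, Set.mem_sdiff, SimpleGraph.mem_edgeSet]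
      exact ⟨⟨by simp, Or.inl ⟨e, x, rfl, rfl⟩⟩, hR ▸ y⟩
    · simp only [Sym2.eq_iff, Sum.inl.injEq, Sum.inr.injEq, reduceCtorEq, and_self, or_false] at k
      exact h1 e (mem_filter.1 he).1 e' (mem_filter.1 he').1 k.1 k.2
  have c4 : B ⊆ B1 ∪ B2 ∪ B3 := fun f hf => by
    by_contra k
    simp only [B1, B2, B3, mem_union, mem_filter, hf, true_and, not_or, not_not, not_exists,
      not_and, not_lt] at k
    obtain ⟨⟨k1, k2⟩, k3⟩ := k
    rw [hR] at k1
    obtain ⟨-, U, u1, W, w1, u2, w2, -, u3, u4⟩ := k1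
    have L0 : 0 < #P.parts := card_pos.2 ⟨U, u1⟩
    have sz : ∀ U ∈ P.parts, (n : ℝ) / L ≤ #U := fun U u => by
      have := p1.average_le_card_part u
      rw [card_univ, hN] at this
      have l1 := P.card_parts_le_card
      rw [card_univ, hN] at l1
      have l2 := Nat.lt_div_mul_add (a := 2 * n) L0
      have l3 := (Nat.one_le_div_iff L0).2 l1
      have l4 : n ≤ #U * L := by rw [hL]; nlinarith
      have : (0 : ℝ) < L := by rw [hL]; exact_mod_cast L0.trans_le p3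
      rw [div_le_iff₀ this]
      exact_mod_cast l4
    have L1 : (0 : ℝ) < L := by rw [hL]; exact_mod_cast L0.trans_le p3
    have s1 := k2 U u1 u2
    have s2 := k3 W w1 w2
    have s3 := (abs_lt.1 (u3 inter_subset_right inter_subset_right s1 s2)).1
    have s4 : #(G.interedges (S (c f) ∩ U) (T (d f) ∩ W)) ≤ n + n := by
      refine le_trans (card_le_card (t := ((B.filter fun e => c e = c f) ∪
        B.filter fun e => d e = d f).image fun e => (.inl (a e), .inr (b e))) ?_) ?_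
      · rintro ⟨p, q⟩ h
        obtain ⟨x, y, z⟩ := G.mk_mem_interedges_iff.1 h
        obtain ⟨e', x1, rfl⟩ := mem_image.1 (mem_inter.1 x).1
        obtain ⟨e'', y1, rfl⟩ := mem_image.1 (mem_inter.1 y).1
        obtain ⟨x1, x2⟩ := mem_filter.1 x1
        obtain ⟨y1, y2⟩ := mem_filter.1 y1
        obtain ⟨-, ⟨e, he, z1, z2⟩ | ⟨e, he, z1, -⟩⟩ := z
        · refine mem_image.2 ⟨e, ?_, by rw [z1, z2]⟩
          rcases h4 e he e' x1 e'' y1 f hf (Sum.inl_injective z1) (Sum.inr_injective z2) x2 y2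
            with rfl | rfl <;> simp [*]
        · cases z1
      · refine card_image_le.trans ((card_union_le _ _).trans (add_le_add ?_ ?_))
        · refine (card_le_card_of_injOn a (t := univ) (by simp) fun e he e' he' k => ?_).trans_eq
            (by simp)
          simp only [coe_filter, Set.mem_ofPred_eq] at he he'
          exact h2 e he.1 e' he'.1 k (he.2.trans he'.2.symm)
        · refine (card_le_card_of_injOn b (t := univ) (by simp) fun e he e' he' k => ?_).trans_eq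
            (by simp)
          simp only [coe_filter, Set.mem_ofPred_eq] at he he'
          exact h3 e he.1 e' he'.1 k (he.2.trans he'.2.symm)
    have n1 : (0 : ℝ) < n := by exact_mod_cast n0
    have t1 : n / L * (ε / 8) ≤ (#(S (c f) ∩ U) : ℝ) := le_trans (by gcongr; exact sz U u1) s1
    have t2 : n / L * (ε / 8) ≤ (#(T (d f) ∩ W) : ℝ) := le_trans (by gcongr; exact sz W w1) s2
    have t0 : 0 < n / L * (ε / 8) := by positivity
    have s5 : ε / 8 < (G.edgeDensity (S (c f) ∩ U) (T (d f) ∩ W) : ℝ) := by linarith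
    rw [SimpleGraph.edgeDensity_def] at s5
    push_cast at s5
    rw [lt_div_iff₀ (mul_pos (t0.trans_le t1) (t0.trans_le t2))] at s5
    have s6 : ε / 8 * (n / L * (ε / 8) * (n / L * (ε / 8))) < n + n := by
      refine lt_of_le_of_lt (by gcongr) (s5.trans_le (by exact_mod_cast s4))
    have s7 : 2 * (L : ℝ) ^ 2 / (ε / 8) ^ 3 ≤ n :=
      (Nat.le_ceil _).trans (Nat.cast_le.2 (by omega))
    rw [div_le_iff₀ (by positivity)] at s7
    have s8 : ε / 8 * (n / L * (ε / 8) * (n / L * (ε / 8))) = n * (n * (ε / 8) ^ 3) / L ^ 2 := by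
      field_simp
    rw [s8, div_lt_iff₀ (by positivity)] at s6
    nlinarith
  have c5 : (#B : ℝ) ≤ #B1 + #B2 + #B3 := by
    exact_mod_cast (card_le_card c4).trans ((card_union_le _ _).trans
      (add_le_add_left (card_union_le _ _) _))
  rw [hN] at k c2 c3
  simp only [Fintype.card_fin] at c2 c3
  push_cast at k c2 c3
  have : 0 ≤ ε * n ^ 2 := by positivity
  nlinarith

theorem lin {E V : Type} [Fintype V] {r : ℕ} (B : Finset E) (cl : E → Fin r → V)
    (ψ : E → V → ℚ) (α : Fin r → ℚ) (β : ℚ)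
    (h1 : ∀ e ∈ B, ∑ i, α i * ψ e (cl e i) ≠ β)
    (h2 : ∀ e ∈ B, ∀ f ∈ B, f ≠ e → ∑ i, α i * ψ e (cl f i) = β) : #B ≤ Fintype.card V + 1 := by
  classical
  let l : E → Module.Dual ℚ (Option V → ℚ) := fun f =>
    ∑ i, α i • LinearMap.proj (some (cl f i)) - β • LinearMap.proj none
  let y : E → Option V → ℚ := fun e o => o.elim 1 (ψ e)
  have h3 : ∀ e f, l f (y e) = ∑ i, α i * ψ e (cl f i) - β := fun e f => by
    simp [l, y, LinearMap.sum_apply]
  have := (LinearIndependent.of_pairwise_dual_eq_zero_one (fun e : B => y e)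
    (fun e => (l e (y e))⁻¹ • l e) (fun e f k => by
      simp [h3, h2 f f.2 e e.2 (fun h => k (Subtype.ext h))]) fun e => by
      simpa using inv_mul_cancel₀ (by rw [h3]; exact sub_ne_zero.2 (h1 e e.2))
    ).fintype_card_le_finrank
  simpa using this

end Pool.Agent.H.MP_7c0615_lc
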